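import Mathlib

set_option autoImplicit false

namespace Pool.Agent.Results.MP_cfb286_al.No

open NumberField
open scoped MatrixGroups

/-- The field generated over the rationals by the values of `χ`. -/
noncomputable abbrev CharField {G : Type} (χ : G → ℂ) : IntermediateField ℚ ℂ :=
  IntermediateField.adjoin ℚ (Set.range χ)

/-- `χ` is unramified at `p`: every prime of the ring of integers of its field of values
that contains `p` has ramification index one. -/
def Unram {G : Type} (p : ℕ) (χ : G → ℂ) : Prop :=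
  ∀ P : Ideal (𝓞 (CharField χ)), P.IsPrime → ((p : ℕ) : 𝓞 (CharField χ)) ∈ P →
    Ideal.ramificationIdx' (Ideal.span {((p : ℕ) : ℤ)}) P = 1

/-- `χ g ≡ χ g'` modulo `p ^ m` times the ring of integers of the field of values. -/
def Cong {G : Type} (p m : ℕ) (χ : G → ℂ) (g g' : G) : Prop :=
  ∃ z : 𝓞 (CharField χ), χ g - χ g' = (p : ℂ) ^ m * ((z : CharField χ) : ℂ)

/-- The generating moves of the relation `∼_m`. -/
def Step {G : Type} [Group G] (p m : ℕ) (g g' : G) : Prop :=
  (∃ x : G, g' = x * g * x⁻¹) ∨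
    ∃ (h : G) (k : ℕ), Commute h g ∧ orderOf h = p ^ k ∧ g' = g * h ^ (p ^ (m - 1))

/-- The relation `∼_m`: the smallest equivalence relation containing the moves. -/
def Sim {G : Type} [Group G] (p m : ℕ) : G → G → Prop := Relation.EqvGen (Step p m)

instance : Fact (Nat.Prime 19) := ⟨by norm_num⟩

abbrev S := Matrix.SpecialLinearGroup (Fin 2) (ZMod 19)
abbrev G19 := Matrix.ProjectiveSpecialLinearGroup (Fin 2) (ZMod 19)

def a : S := ⟨!![0, 18; 1, 4], by decide⟩
def w : S := ⟨!![2, 11; 3, 17], by decide⟩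

theorem a5 : a ^ 5 = 1 := by decide +kernel
theorem wa : w * a = a ^ 4 * w := by decide +kernel
theorem tra : Matrix.trace (a : Matrix (Fin 2) (Fin 2) (ZMod 19)) = 4 := by decide +kernel
theorem tra2 : Matrix.trace ((a ^ 2 : S) : Matrix (Fin 2) (Fin 2) (ZMod 19)) = 14 := by
  decide +kernel

def g : G19 := QuotientGroup.mk a
def x : G19 := QuotientGroup.mk w

theorem g5 : g ^ 5 = 1 := by
  unfold g; rw [← QuotientGroup.mk_pow, a5]; rfl

theorem xg : x * g * x⁻¹ = g ^ 4 := by
  have : x * g = g ^ 4 * x := by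
    unfold x g; rw [← QuotientGroup.mk_pow, ← QuotientGroup.mk_mul, ← QuotientGroup.mk_mul, wa]
  rw [this]; group

theorem xg2 : x * g ^ 2 * x⁻¹ = g ^ 3 := by
  have : x * g ^ 2 * x⁻¹ = (x * g * x⁻¹) ^ 2 := by rw [conj_pow]
  rw [this, xg, ← pow_mul, show 4 * 2 = 5 + 3 from rfl, pow_add, g5, one_mul]

theorem nconj : ¬ IsConj g (g ^ 2) := by
  rw [isConj_iff]
  rintro ⟨y, hy⟩
  obtain ⟨c, rfl⟩ := QuotientGroup.mk_surjective y
  unfold g at hy
  rw [← QuotientGroup.mk_pow, ← QuotientGroup.mk_inv, ← QuotientGroup.mk_mul,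
    ← QuotientGroup.mk_mul, QuotientGroup.eq, Matrix.SpecialLinearGroup.mem_center_iff] at hy
  obtain ⟨r, hr, h⟩ := hy
  have h1 : ((a ^ 2 : S) : Matrix (Fin 2) (Fin 2) (ZMod 19)) =
      ((c * a * c⁻¹ : S) : Matrix (Fin 2) (Fin 2) (ZMod 19)) * Matrix.scalar (Fin 2) r := by
    rw [h, ← Matrix.SpecialLinearGroup.coe_mul, mul_inv_cancel_left]
  have h2 : Matrix.trace ((c * a * c⁻¹ : S) : Matrix (Fin 2) (Fin 2) (ZMod 19)) = 4 := by
    rw [Matrix.SpecialLinearGroup.coe_mul, Matrix.trace_mul_comm,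
      ← Matrix.SpecialLinearGroup.coe_mul, inv_mul_cancel_left, tra]
  have h3 := congrArg Matrix.trace h1
  rw [tra2, Matrix.scalar_apply, ← Matrix.smul_eq_mul_diagonal, Matrix.trace_smul, h2] at h3
  simp only [Fintype.card_fin] at hr
  revert hr h3
  generalize r = r
  revert r
  decide +kernel

theorem card_dvd : Nat.card G19 ∣ 123120 := by
  have h1 : Nat.card G19 ∣ Nat.card S := Subgroup.card_quotient_dvd_card _
  have h2 : Nat.card S ∣ Nat.card (GL (Fin 2) (ZMod 19)) :=
    Subgroup.card_dvd_of_injective Matrix.SpecialLinearGroup.toGL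
      Matrix.SpecialLinearGroup.toGL_injective
  have h3 : Nat.card (GL (Fin 2) (ZMod 19)) = 123120 := by
    rw [Matrix.card_GL_field]; simp [Fin.prod_univ_two]
  exact h3 ▸ h1.trans h2

theorem pow5 (h : G19) (k : ℕ) (hk : orderOf h = 5 ^ k) : h ^ 5 = 1 := by
  have h1 : 5 ^ k ∣ 123120 := hk ▸ (orderOf_dvd_natCard h).trans card_dvd
  have h2 : k ≤ 1 := by
    by_contra hc
    have : 5 ^ 2 ∣ 123120 := (pow_dvd_pow 5 (by omega)).trans h1
    norm_num at this
  apply orderOf_dvd_iff_pow_eq_one.1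
  rw [hk]
  simpa using pow_dvd_pow 5 h2

theorem sim_conj (m : ℕ) (hm : 2 ≤ m) (u v : G19) (h : Sim 5 m u v) : IsConj u v := by
  induction h with
  | rel u v h =>
    rcases h with ⟨y, rfl⟩ | ⟨h, k, -, hk, rfl⟩
    · exact isConj_iff.2 ⟨y, rfl⟩
    · obtain ⟨j, hj⟩ : ∃ j, m - 1 = j + 1 := ⟨m - 2, by omega⟩
      rw [hj, pow_succ', pow_mul, pow5 h k hk, one_pow, mul_one]
  | refl => exact IsConj.refl _
  | symm _ _ _ ih => exact ih.symm
  | trans _ _ _ _ _ ih1 ih2 => exact ih1.trans ih2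

theorem trace_idem {V : Type} [AddCommGroup V] [Module ℂ V] [FiniteDimensional ℂ V]
    (P : Module.End ℂ V) (h : P * P = P) : ∃ n : ℕ, LinearMap.trace ℂ V P = n := by
  have : LinearMap.IsProj (LinearMap.range P) P :=
    ⟨fun v => ⟨v, rfl⟩, by rintro _ ⟨v, rfl⟩; exact congrArg (fun f : Module.End ℂ V => f v) h⟩
  exact ⟨_, this.trace⟩

theorem trace_cube {V : Type} [AddCommGroup V] [Module ℂ V] [FiniteDimensional ℂ V]
    (U : Module.End ℂ V) (h : U * U * U = U) : ∃ n : ℤ, LinearMap.trace ℂ V U = n := by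
  have h4 : U * U * (U * U) = U * U := by rw [← mul_assoc, h]
  have h3 : U * (U * U) = U := by rw [← mul_assoc, h]
  obtain ⟨n1, e1⟩ := trace_idem ((1 / 2 : ℂ) • (U * U + U)) (by
    rw [smul_mul_smul_comm, add_mul, mul_add, mul_add, h4, h, h3]; module)
  obtain ⟨n2, e2⟩ := trace_idem ((1 / 2 : ℂ) • (U * U - U)) (by
    rw [smul_mul_smul_comm, sub_mul, mul_sub, mul_sub, h4, h, h3]; module)
  refine ⟨n1 - n2, ?_⟩
  push_cast
  rw [← e1, ← e2, ← map_sub]
  congr 1
  module

theorem gauss {A : Type} [Ring A] (t : A) (h : t ^ 5 = 1) :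
    (t + t ^ 4 - t ^ 2 - t ^ 3) ^ 3 = 5 * (t + t ^ 4 - t ^ 2 - t ^ 3) := by
  have key : ((Polynomial.X + Polynomial.X ^ 4 - Polynomial.X ^ 2 - Polynomial.X ^ 3) ^ 3 : Polynomial ℤ) =
      5 * (Polynomial.X + Polynomial.X ^ 4 - Polynomial.X ^ 2 - Polynomial.X ^ 3) +
      (Polynomial.X ^ 7 - 3 * Polynomial.X ^ 6 + 8 * Polynomial.X ^ 4 - 6 * Polynomial.X ^ 3
        - 5 * Polynomial.X ^ 2 + 5 * Polynomial.X) * (Polynomial.X ^ 5 - 1) := by
    ring
  have := congrArg (Polynomial.aeval t) key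
  simp only [map_pow, map_sub, map_add, map_mul, Polynomial.aeval_X, map_one, map_ofNat, h,
    sub_self, mul_zero, add_zero] at this
  exact this

theorem ram {G : Type} (χ : G → ℂ) (s : ℂ) (hs : s ^ 2 = 5) (hmem : s ∈ CharField χ) :
    ¬ Unram 5 χ := by
  intro hU
  have hint : IsIntegral ℤ (⟨s, hmem⟩ : CharField χ) := by
    refine ⟨Polynomial.X ^ 2 - Polynomial.C 5, Polynomial.monic_X_pow_sub_C _ (by norm_num), ?_⟩
    simp only [Polynomial.eval₂_sub, Polynomial.eval₂_X_pow, Polynomial.eval₂_C]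
    apply Subtype.ext
    push_cast
    rw [hs]
    exact sub_self (5 : ℂ)
  set r : 𝓞 (CharField χ) := ⟨⟨s, hmem⟩, hint⟩ with hr
  have hr2 : r * r = ((5 : ℕ) : 𝓞 (CharField χ)) := by
    apply RingOfIntegers.ext
    apply Subtype.ext
    have : s * s = 5 := by rw [← hs]; ring
    exact this
  have h5 : (Ideal.span {((5 : ℕ) : ℤ)}).IsPrime := by
    rw [Ideal.span_singleton_prime (by norm_num)]
    exact Nat.prime_iff_prime_int.1 (by norm_num)
  obtain ⟨P, -, hP, hc⟩ := Ideal.exists_ideal_over_prime_of_isIntegral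
    (R := ℤ) (S := 𝓞 (CharField χ)) (Ideal.span {((5 : ℕ) : ℤ)}) ⊥ (by
      intro z hz
      have : z = 0 := by simpa using hz
      simp [this])
  have hm : ((5 : ℕ) : 𝓞 (CharField χ)) ∈ P := by
    have : ((5 : ℕ) : ℤ) ∈ P.comap (algebraMap ℤ (𝓞 (CharField χ))) := by
      rw [hc]; exact Ideal.mem_span_singleton_self _
    simpa using this
  have hrP : r ∈ P := by
    rcases hP.mem_or_mem (hr2 ▸ hm : r * r ∈ P) with h | h <;> exact h
  have hle : Ideal.map (algebraMap ℤ (𝓞 (CharField χ))) (Ideal.span {((5 : ℕ) : ℤ)}) ≤ P ^ 2 := by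
    rw [Ideal.map_span, Set.image_singleton, Ideal.span_le, Set.singleton_subset_iff]
    have : r * r ∈ P ^ 2 := by rw [sq]; exact Ideal.mul_mem_mul hrP hrP
    rw [hr2] at this
    simpa using this
  have h1 := hU P hP hm
  unfold Ideal.ramificationIdx' at h1
  by_cases hb : BddAbove {n | Ideal.map (algebraMap ℤ (𝓞 (CharField χ)))
      (Ideal.span {((5 : ℕ) : ℤ)}) ≤ P ^ n}
  · have := le_csSup hb (show 2 ∈ _ from hle)
    omega
  · rw [csSup_of_not_bddAbove hb] at h1
    simp at h1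

theorem char_eq (V : FDRep ℂ G19) (hU : Unram 5 V.character) :
    V.character g = V.character (g ^ 2) := by
  by_contra hne
  obtain ⟨s, hs⟩ : ∃ s : ℂ, s ^ 2 = 5 := IsAlgClosed.exists_pow_nat_eq 5 (by norm_num)
  have hs0 : s ≠ 0 := by rintro rfl; norm_num at hs
  set t : Module.End ℂ V := V.ρ g with ht
  have ht5 : t ^ 5 = 1 := by rw [ht, ← map_pow, g5, map_one]
  set T := t + t ^ 4 - t ^ 2 - t ^ 3 with hT
  have hT3 : T * T * T = (5 : ℂ) • T := by
    have := gauss t ht5
    rw [← hT, pow_three'] at this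
    rw [this]
    ext v
    simp [Module.End.mul_apply, Module.End.ofNat_apply, ofNat_smul_eq_nsmul]
  obtain ⟨n, hn⟩ := trace_cube (s⁻¹ • T) (by
    rw [smul_mul_smul_comm, smul_mul_smul_comm, hT3, smul_smul]
    congr 1
    rw [← hs]; field_simp)
  have htr : LinearMap.trace ℂ V T = 2 * (V.character g - V.character (g ^ 2)) := by
    have e4 : LinearMap.trace ℂ V (t ^ 4) = V.character g := by
      rw [ht, ← map_pow, ← xg]; exact V.char_conj g x
    have e3 : LinearMap.trace ℂ V (t ^ 3) = V.character (g ^ 2) := by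
      rw [ht, ← map_pow, ← xg2]; exact V.char_conj (g ^ 2) x
    have e2 : LinearMap.trace ℂ V (t ^ 2) = V.character (g ^ 2) := by
      rw [ht, ← map_pow]; rfl
    have e1 : LinearMap.trace ℂ V t = V.character g := rfl
    rw [hT, map_sub, map_sub, map_add, e1, e2, e3, e4]; ring
  rw [map_smul, htr, smul_eq_mul] at hn
  have hd : V.character g - V.character (g ^ 2) ≠ 0 := sub_ne_zero.2 hne
  have hn0 : (n : ℂ) ≠ 0 := by
    rw [← hn]; exact mul_ne_zero (inv_ne_zero hs0) (mul_ne_zero two_ne_zero hd)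
  have hsv : s = 2 * (V.character g - V.character (g ^ 2)) / n := by
    rw [← hn]; field_simp
  refine ram V.character s hs ?_ hU
  rw [hsv]
  refine div_mem (mul_mem (ofNat_mem _ 2) (sub_mem ?_ ?_)) (intCast_mem _ n)
  · exact IntermediateField.subset_adjoin _ _ ⟨_, rfl⟩
  · exact IntermediateField.subset_adjoin _ _ ⟨_, rfl⟩

/-- In the finite simple group `PSL(2, 19)` (defining characteristic 19) with `p = 5`, for every
`m ≥ 2` there are `g`, `g'` that are not `∼_m`-equivalent although every character unramified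
at `5` takes congruent (indeed equal) values on them. -/
theorem result :
    IsSimpleGroup PSL(2, ZMod 19) ∧
    ∃ g g' : PSL(2, ZMod 19), ∀ m : ℕ, 2 ≤ m →
      ¬ Sim 5 m g g' ∧
      ∀ V : FDRep ℂ PSL(2, ZMod 19), Unram 5 V.character →
        V.character g = V.character g' ∧ Cong 5 m V.character g g' := by
  refine ⟨Matrix.ProjectiveSpecialLinearGroup.rank_two_simple (by simp), g, g ^ 2,
    fun m hm => ⟨fun h => nconj (sim_conj m hm _ _ h), fun V hU => ⟨char_eq V hU, 0, ?_⟩⟩⟩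
  rw [char_eq V hU]; simp

end Pool.Agent.Results.MP_cfb286_al.No
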